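import Mathlib

/-!
Definitions for the gluing argument: Gauss norms, directions, places of a monic polynomial, worlds, symbols on
`F[T]/π` (with values in an abelian group), systems of local symbols.

Conventions. `σ : F →+* F` is `x ↦ x ^ Q`, `2 ≤ Q`. Valuations are multiplicative (`v x < 1` = small).
`tw σ i y` is the polynomial with coefficients raised to the power `Q ^ i`.
-/

set_option autoImplicit false

open Polynomial

namespace Pool.Agent.LibG64

section basic

variable {F : Type*} [Field F]

/-- `σ` is the map `x ↦ x ^ Q`, `Q ≥ 2`. -/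
structure IsFrob (σ : F →+* F) (Q : ℕ) : Prop where
  two_le : 2 ≤ Q
  pow : ∀ x, σ x = x ^ Q

/-- Every element has `m`-th roots, `m ≥ 1`. -/
def Div (F : Type*) [Field F] : Prop := ∀ m : ℕ, 1 ≤ m → ∀ x : F, ∃ y : F, y ^ m = x

/-- The `i`-th Frobenius twist of a polynomial. -/
noncomputable def tw (σ : F →+* F) (i : ℕ) (y : F[X]) : F[X] := (Polynomial.map σ)^[i] y

variable {Γ : Type*} [LinearOrderedCommGroupWithZero Γ]

/-- The Gauss norm of a polynomial. -/
noncomputable def nrm (v : Valuation F Γ) (g : F[X]) : Γ := g.support.sup fun k => v (g.coeff k)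

/-- `f` and `g` have the same direction at `v`. -/
def Dir (v : Valuation F Γ) (f g : F[X]) : Prop := ∃ c : F, nrm v (f - C c * g) < nrm v f

/-- The Gauss norm is multiplicative on `F[T]/y`. -/
def Mult (v : Valuation F Γ) (y : F[X]) : Prop :=
  ∀ f g : F[X], f.degree < y.degree → g.degree < y.degree → nrm v ((f * g) %ₘ y) = nrm v f * nrm v g

/-- Nonzero polynomials of degree less than `n`. -/
def W (F : Type*) [Field F] (n : ℕ) : Set F[X] := {g | g ≠ 0 ∧ g.degree < n}

/-- `y` is monic of degree `n`. -/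
def Mon (n : ℕ) (y : F[X]) : Prop := y.Monic ∧ y.natDegree = n

/-- `y` is integral and irreducible at `v`, and congruent to its Frobenius twist. -/
structure Good (σ : F →+* F) (v : Valuation F Γ) (y : F[X]) : Prop where
  int : nrm v y ≤ 1
  fix : nrm v (y - y.map σ) < 1
  mult : Mult v y

/-- The set of places of `y`. -/
def Pl (σ : F →+* F) (y : F[X]) : Set (ValuationSubring F) := {O | Good σ O.valuation y}

/-- A set of places with contents and stable range one. -/
structure World (X : Set (ValuationSubring F)) : Prop where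
  gcd : ∀ a b : F, ∃ g : F, ∀ O ∈ X, O.valuation g = max (O.valuation a) (O.valuation b)
  sr : ∀ a b : F, ∃ r : F, (∀ O ∈ X, O.valuation r ≤ 1) ∧
    ∀ O ∈ X, O.valuation (a + r * b) = max (O.valuation a) (O.valuation b)

end basic

section symbols

variable {F : Type*} [Field F] {A : Type*} [AddCommGroup A]

/-- A Steinberg symbol on `F[T]/P`, trivial on constants, with `b(g^σ, h) = Q b(g, h)`
(all on nonzero polynomials of degree less than `deg P`). -/
structure QSym (σ : F →+* F) (Q : ℕ) (P : F[X]) (b : F[X] → F[X] → A) : Prop where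
  mul : ∀ f ∈ W F P.natDegree, ∀ g ∈ W F P.natDegree, ∀ h ∈ W F P.natDegree,
    b ((f * g) %ₘ P) h = b f h + b g h
  anti : ∀ f ∈ W F P.natDegree, ∀ g ∈ W F P.natDegree, b f g = - b g f
  tri : ∀ f ∈ W F P.natDegree, ∀ g ∈ W F P.natDegree, f + g ≠ 0 → b f g = b f (f + g) + b (f + g) g
  const : ∀ a : F, a ≠ 0 → ∀ g ∈ W F P.natDegree, b (C a) g = 0
  frob : ∀ f ∈ W F P.natDegree, ∀ g ∈ W F P.natDegree, b (f.map σ) g = Q • b f g

/-- `c` depends only on the directions at the places of `X`. -/
def Supp (X : Set (ValuationSubring F)) (n : ℕ) (c : F[X] → A) : Prop :=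
  ∀ f ∈ W F n, ∀ g ∈ W F n, (∀ O ∈ X, Dir O.valuation f g) → c f = c g

/-- A homomorphism on `F[T]/y`, `y` monic of degree `n`, supported at the places of `y`. -/
structure CData (σ : F →+* F) (Q n : ℕ) (y : F[X]) (c : F[X] → A) : Prop where
  mul : ∀ f ∈ W F n, ∀ g ∈ W F n, c ((f * g) %ₘ y) = c f + c g
  frob : ∀ f ∈ W F n, c (f.map σ) = Q • c f
  supp : Supp (Pl σ y) n c

/-- The system of local symbols `c_y = b(·, y)`, `y` monic of degree `n`. -/
structure Sys (σ : F →+* F) (Q n : ℕ) (b : F[X] → F[X] → A) : Prop where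
  data : ∀ y, Mon n y → (Pl σ y).Nonempty → CData σ Q n y (fun g => b g y)
  rel : ∀ x y, Mon n x → Mon n y → (Pl σ x).Nonempty → (Pl σ y).Nonempty → ∀ i, tw σ i x ≠ y → x ≠ y →
    b (tw σ i x - y) y - Q ^ i • b (tw σ i x - y) x = Q ^ i • (b (x - y) y - b (x - y) x)

end symbols

end Pool.Agent.LibG64
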